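import Mathlib

/-!
# Leverage scores of a complex matrix
-/

set_option autoImplicit false

open Finset

namespace Pool.Agent.W5h94.TR

/-- For a complex matrix `L` there are numbers `ℓ y ≥ 0` with sum at most the rank such that
`|v y| ^ 2 ≤ ℓ y * ∑ |v| ^ 2` for all `v` in the row space. -/
theorem leverage {ι V : Type*} [Fintype ι] [Fintype V] [DecidableEq V] (L : Matrix ι V ℂ) :
    ∃ ℓ : V → ℝ, (∀ y, 0 ≤ ℓ y) ∧ ∑ y, ℓ y ≤ L.rank ∧
      ∀ (u : ι → ℂ) (y : V), ‖∑ x, u x * L x y‖ ^ 2 ≤ ℓ y * ∑ z, ‖∑ x, u x * L x z‖ ^ 2 := by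
  classical
  let E := EuclideanSpace ℂ V
  let e : (V → ℂ) ≃ₗ[ℂ] E := (WithLp.linearEquiv 2 ℂ (V → ℂ)).symm
  let W : Submodule ℂ E := Submodule.span ℂ (Set.range fun x : ι => e (L x))
  have hWr : Module.finrank ℂ W = L.rank := by
    rw [Matrix.rank_eq_finrank_span_row]
    have h1 : W = (Submodule.span ℂ (Set.range L.row)).map (e : (V → ℂ) →ₗ[ℂ] E) := by
      rw [Submodule.map_span, ← Set.range_comp]
      rfl
    rw [h1]
    exact LinearEquiv.finrank_map_eq e _
  let u := stdOrthonormalBasis ℂ W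
  let Q : E →L[ℂ] E := W.starProjection
  have hev : ∀ (v : V → ℂ) (y : V), (e v) y = v y := fun v y => rfl
  have hcoord : ∀ (w : E) (y : V), w y = inner ℂ (EuclideanSpace.single y (1 : ℂ)) w := by
    intro w y
    rw [EuclideanSpace.inner_single_left]
    simp
  have hnorm : ∀ v : V → ℂ, ‖e v‖ ^ 2 = ∑ z, ‖v z‖ ^ 2 := by
    intro v
    rw [EuclideanSpace.norm_sq_eq]
    simp [hev]
  refine ⟨fun y => ‖Q (EuclideanSpace.single y (1 : ℂ))‖ ^ 2, fun y => by positivity, ?_, ?_⟩
  · -- the trace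
    rw [← hWr]
    have h1 : ∀ y, ‖Q (EuclideanSpace.single y (1 : ℂ))‖ ^ 2 =
        ∑ i, ‖((u i : W) : E) y‖ ^ 2 := by
      intro y
      have h2 : ‖Q (EuclideanSpace.single y (1 : ℂ))‖ =
          ‖W.orthogonalProjectionOnto (EuclideanSpace.single y (1 : ℂ))‖ := rfl
      rw [h2, ← u.sum_sq_norm_inner_right]
      refine Finset.sum_congr rfl fun i _ => ?_
      rw [Submodule.inner_orthogonalProjectionOnto_eq_of_mem_left, ← norm_inner_symm,
        ← hcoord]
    have h3 : ∑ y, ‖Q (EuclideanSpace.single y (1 : ℂ))‖ ^ 2 = ∑ i, ∑ y, ‖((u i : W) : E) y‖ ^ 2 := by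
      rw [Finset.sum_comm]
      exact Finset.sum_congr rfl fun y _ => h1 y
    have h4 : ∀ i, ∑ y, ‖((u i : W) : E) y‖ ^ 2 = 1 := by
      intro i
      have h5 : ‖((u i : W) : E)‖ = 1 := u.orthonormal.1 i
      have h6 := EuclideanSpace.norm_sq_eq ((u i : W) : E)
      rw [h5] at h6
      simp only [one_pow] at h6
      exact h6.symm
    have h7 : ∑ y, ‖Q (EuclideanSpace.single y (1 : ℂ))‖ ^ 2 = (Module.finrank ℂ W : ℝ) := by
      rw [h3, Finset.sum_congr rfl fun i _ => h4 i]
      simp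
    exact h7.le
  · intro c y
    set v : V → ℂ := fun z => ∑ x, c x * L x z with hv
    have hmem : e v ∈ W := by
      have h1 : e v = ∑ x, c x • e (L x) := by
        have h2 : v = ∑ x, c x • L x := by
          funext z
          rw [Finset.sum_apply]
          rfl
        rw [h2, map_sum]
        exact Finset.sum_congr rfl fun x _ => map_smul e _ _
      rw [h1]
      exact Submodule.sum_mem _ fun x _ => Submodule.smul_mem _ _ (Submodule.subset_span ⟨x, rfl⟩)
    have h1 : v y = inner ℂ (Q (EuclideanSpace.single y (1 : ℂ))) (e v) := by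
      have h2 : Q (e v) = e v := Submodule.starProjection_eq_self_iff.2 hmem
      rw [Submodule.inner_starProjection_left_eq_right W, ← hcoord]
      change v y = (Q (e v)) y
      rw [h2]
      rfl
    change ‖v y‖ ^ 2 ≤ _ * ∑ z, ‖v z‖ ^ 2
    rw [← hnorm, h1, ← mul_pow]
    exact pow_le_pow_left₀ (norm_nonneg _) (norm_inner_le_norm _ _) 2

end Pool.Agent.W5h94.TR
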