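import Mathlib

/-!
# Scaling of nonnegative matrices with positive diagonal

The columns of a nonnegative square matrix with positive diagonal can be multiplied by positive
numbers such that, after the normalisation of the rows, all column sums are close to one.
-/

set_option autoImplicit false

open Finset

namespace Pool.Agent.W5h94.TR

variable {ι : Type*} [Fintype ι]

/-- the function that is minimised -/
noncomputable def pot (a : ι → ι → ℝ) (δ : ℝ) (v : ι → ℝ) : ℝ :=
  ∑ i, Real.log (∑ j, a i j * Real.exp (v j)) - ∑ j, v j + δ * ∑ j, v j ^ 2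

lemma row_pos {a : ι → ι → ℝ} (ha : ∀ i j, 0 ≤ a i j) (hd : ∀ i, 0 < a i i) (v : ι → ℝ) (i : ι) :
    0 < ∑ j, a i j * Real.exp (v j) := by
  refine Finset.sum_pos' (fun j _ => mul_nonneg (ha i j) (Real.exp_pos _).le)
    ⟨i, Finset.mem_univ i, mul_pos (hd i) (Real.exp_pos _)⟩

lemma pot_ge {a : ι → ι → ℝ} (ha : ∀ i j, 0 ≤ a i j) (hd : ∀ i, 0 < a i i) (δ : ℝ) (v : ι → ℝ) :
    ∑ i, Real.log (a i i) + δ * ∑ j, v j ^ 2 ≤ pot a δ v := by
  unfold pot
  have h1 : ∀ i, Real.log (a i i) + v i ≤ Real.log (∑ j, a i j * Real.exp (v j)) := by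
    intro i
    have h2 : a i i * Real.exp (v i) ≤ ∑ j, a i j * Real.exp (v j) :=
      Finset.single_le_sum (f := fun j => a i j * Real.exp (v j))
        (fun j _ => mul_nonneg (ha i j) (Real.exp_pos _).le) (Finset.mem_univ i)
    have h3 := Real.log_le_log (mul_pos (hd i) (Real.exp_pos _)) h2
    rwa [Real.log_mul (hd i).ne' (Real.exp_pos _).ne', Real.log_exp] at h3
  have h2 := Finset.sum_le_sum fun i (_ : i ∈ univ) => h1 i
  rw [Finset.sum_add_distrib] at h2
  linarith

lemma pot_continuous {a : ι → ι → ℝ} (ha : ∀ i j, 0 ≤ a i j) (hd : ∀ i, 0 < a i i) (δ : ℝ) :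
    Continuous (pot a δ) := by
  unfold pot
  refine Continuous.add (Continuous.sub ?_ ?_) ?_
  · refine continuous_finsetSum _ fun i _ => ?_
    refine Continuous.log ?_ fun v => (row_pos ha hd v i).ne'
    fun_prop
  · fun_prop
  · fun_prop

lemma exists_min {a : ι → ι → ℝ} (ha : ∀ i j, 0 ≤ a i j) (hd : ∀ i, 0 < a i i) {δ : ℝ}
    (hδ : 0 < δ) : ∃ v, ∀ w, pot a δ v ≤ pot a δ w := by
  refine (pot_continuous ha hd δ).exists_forall_le ?_
  have h1 : Filter.Tendsto (fun v : ι → ℝ => ∑ i, Real.log (a i i) + δ * ‖v‖ ^ 2)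
      (Filter.cocompact _) Filter.atTop := by
    refine Filter.tendsto_atTop_add_const_left _ _ ?_
    refine Filter.Tendsto.const_mul_atTop hδ ?_
    exact (Filter.tendsto_pow_atTop two_ne_zero).comp (tendsto_norm_cocompact_atTop)
  refine Filter.tendsto_atTop_mono (fun v => ?_) h1
  refine le_trans ?_ (pot_ge ha hd δ v)
  have h2 : ‖v‖ ^ 2 ≤ ∑ j, v j ^ 2 := by
    have h3 : ‖v‖ ≤ Real.sqrt (∑ j, v j ^ 2) := by
      refine (pi_norm_le_iff_of_nonneg (Real.sqrt_nonneg _)).2 fun j => ?_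
      rw [Real.norm_eq_abs, ← Real.sqrt_sq_eq_abs]
      exact Real.sqrt_le_sqrt (Finset.single_le_sum (f := fun j => v j ^ 2)
        (fun j _ => sq_nonneg _) (Finset.mem_univ j))
    calc ‖v‖ ^ 2 ≤ Real.sqrt (∑ j, v j ^ 2) ^ 2 := pow_le_pow_left₀ (norm_nonneg _) h3 2
      _ = _ := Real.sq_sqrt (Finset.sum_nonneg fun _ _ => sq_nonneg _)
  have := mul_le_mul_of_nonneg_left h2 hδ.le
  linarith

lemma pot_line [DecidableEq ι] (a : ι → ι → ℝ) (δ : ℝ) (v : ι → ℝ) (j : ι) (t : ℝ) :
    pot a δ (v + t • (Pi.single j (1 : ℝ) : ι → ℝ)) =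
      ∑ i, Real.log (∑ l, a i l * Real.exp (v l) + a i j * (Real.exp (v j + t) - Real.exp (v j)))
        - (∑ l, v l + t) + δ * (∑ l, v l ^ 2 + (2 * v j * t + t ^ 2)) := by
  unfold pot
  have h0 : ∀ (f g : ι → ℝ), (∀ l, l ≠ j → f l = g l) → ∑ l, f l = ∑ l, g l + (f j - g j) := by
    intro f g h
    rw [← Finset.add_sum_erase _ f (Finset.mem_univ j), ← Finset.add_sum_erase _ g (Finset.mem_univ j),
      Finset.sum_congr rfl fun l hl => h l (Finset.ne_of_mem_erase hl)]
    ring
  have hv : ∀ l, l ≠ j → (v + t • (Pi.single j (1 : ℝ) : ι → ℝ)) l = v l := by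
    intro l hl
    simp [hl]
  have hj : (v + t • (Pi.single j (1 : ℝ) : ι → ℝ)) j = v j + t := by simp
  congr 1
  · congr 1
    · refine Finset.sum_congr rfl fun i _ => ?_
      congr 1
      rw [h0 _ (fun l => a i l * Real.exp (v l)) (fun l hl => by rw [hv l hl]), hj]
      ring
    · rw [h0 _ v hv, hj]
      ring
  · congr 1
    rw [h0 _ (fun l => v l ^ 2) (fun l hl => by rw [hv l hl]), hj]
    ring

/-- **Scaling.** -/
theorem scaling {a : ι → ι → ℝ} (ha : ∀ i j, 0 ≤ a i j) (hd : ∀ i, 0 < a i i) {ε : ℝ} (hε : 0 < ε) :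
    ∃ c : ι → ℝ, (∀ j, 0 < c j) ∧ ∀ j, |∑ i, a i j * c j / (∑ l, a i l * c l) - 1| ≤ ε := by
  classical
  set C : ℝ := pot a 0 0 - ∑ i, Real.log (a i i) with hC
  have hC0 : 0 ≤ C := by
    have := pot_ge ha hd 0 0
    simp only [zero_mul, add_zero] at this
    rw [hC]
    linarith
  set δ : ℝ := ε ^ 2 / (4 * (C + 1)) with hδ
  have hδ0 : 0 < δ := by positivity
  obtain ⟨v, hv⟩ := exists_min ha hd hδ0
  refine ⟨fun j => Real.exp (v j), fun j => Real.exp_pos _, fun j => ?_⟩
  set R : ι → ℝ := fun i => ∑ l, a i l * Real.exp (v l) with hR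
  have hR0 : ∀ i, 0 < R i := row_pos ha hd v
  -- the derivative in the direction `j`
  have h1 : HasDerivAt (fun t : ℝ => pot a δ (v + t • (Pi.single j (1 : ℝ) : ι → ℝ)))
      (∑ i, a i j * Real.exp (v j) / R i - 1 + δ * (2 * v j)) 0 := by
    have e1 : (fun t : ℝ => pot a δ (v + t • (Pi.single j (1 : ℝ) : ι → ℝ))) = fun t =>
      ∑ i, Real.log (∑ l, a i l * Real.exp (v l) + a i j * (Real.exp (v j + t) - Real.exp (v j)))
        - (∑ l, v l + t) + δ * (∑ l, v l ^ 2 + (2 * v j * t + t ^ 2)) :=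
      funext fun t => pot_line a δ v j t
    rw [e1]
    refine HasDerivAt.add (HasDerivAt.sub ?_ ?_) ?_
    · refine HasDerivAt.fun_sum fun i _ => ?_
      have h2 : HasDerivAt (fun t : ℝ => ∑ l, a i l * Real.exp (v l) +
          a i j * (Real.exp (v j + t) - Real.exp (v j))) (a i j * Real.exp (v j)) 0 := by
        have h3 : HasDerivAt (fun t : ℝ => Real.exp (v j + t)) (Real.exp (v j)) 0 := by
          have h4 : HasDerivAt (fun t : ℝ => v j + t) 1 0 := (hasDerivAt_id 0).const_add _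
          have h5 := h4.exp
          simpa using h5
        exact ((h3.sub_const _).const_mul _).const_add _
      have h3 : (∑ l, a i l * Real.exp (v l) + a i j * (Real.exp (v j + 0) - Real.exp (v j))) = R i := by
        rw [add_zero, sub_self, mul_zero, add_zero]
      have h4 := h2.log (by rw [h3]; exact (hR0 i).ne')
      rw [h3] at h4
      exact h4
    · exact (hasDerivAt_id 0).const_add _
    · refine HasDerivAt.const_mul _ ?_
      refine HasDerivAt.const_add _ ?_
      have h2 : HasDerivAt (fun t : ℝ => 2 * v j * t + t ^ 2) (2 * v j * 1 + 0) 0 := by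
        refine ((hasDerivAt_id 0).const_mul _).add ?_
        have := hasDerivAt_pow 2 (0 : ℝ)
        simpa using this
      simpa using h2
  have h2 : IsLocalMin (fun t : ℝ => pot a δ (v + t • (Pi.single j (1 : ℝ) : ι → ℝ))) 0 := by
    refine Filter.Eventually.of_forall fun t => ?_
    simp only [zero_smul, add_zero]
    exact hv _
  have h3 := h2.hasDerivAt_eq_zero h1
  have h4 : ∑ i, a i j * Real.exp (v j) / R i - 1 = - (2 * δ * v j) := by linarith
  change |∑ i, a i j * Real.exp (v j) / R i - 1| ≤ ε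
  rw [h4, abs_neg]
  have h5 : δ * ∑ l, v l ^ 2 ≤ C := by
    have h6 := hv 0
    have h7 := pot_ge ha hd δ v
    have h8 : pot a δ 0 = pot a 0 0 := by
      unfold pot
      simp
    rw [h8] at h6
    rw [hC]
    linarith
  have h6 : δ * v j ^ 2 ≤ C := by
    refine le_trans (mul_le_mul_of_nonneg_left ?_ hδ0.le) h5
    exact Finset.single_le_sum (f := fun l => v l ^ 2) (fun l _ => sq_nonneg _) (Finset.mem_univ j)
  refine abs_le_of_sq_le_sq ?_ hε.le
  have h7 : (2 * δ * v j) ^ 2 = 4 * δ * (δ * v j ^ 2) := by ring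
  rw [h7]
  have h8 : 4 * δ * (δ * v j ^ 2) ≤ 4 * δ * C := mul_le_mul_of_nonneg_left h6 (by positivity)
  refine h8.trans ?_
  have h9 : 4 * δ * (C + 1) = ε ^ 2 := by
    rw [hδ]
    field_simp
  nlinarith

end Pool.Agent.W5h94.TR
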