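import Mathlib
import Pool.Agent.W5h94.TR.Scal
import Pool.Agent.W5h94.TR.CLev

/-!
# The rank of a matrix with nonzero diagonal and sparse pairs of columns
-/

set_option autoImplicit false

open Finset

namespace Pool.Agent.W5h94.TR

variable {ι : Type*} [Fintype ι] [DecidableEq ι]

/-- Let `B` be a complex square matrix with nonzero diagonal. Assume that for all nonnegative
matrices `b` with the zeros of `B`, with squares of the rows of sum at most `1` and squares of the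
columns of sum at most `K`, the column `y` and the other columns are nearly orthogonal in the sense of
`H`. Then the rank of `B` is at least `card ι / (1 + c)`. -/
theorem rank_ge (B : Matrix ι ι ℂ) (hd : ∀ i, B i i ≠ 0) {c : ℝ} (hc : 0 ≤ c)
    (H : ∀ (b : ι → ι → ℝ) (K : ℝ), (∀ i j, 0 ≤ b i j) → (∀ i j, B i j = 0 → b i j = 0) →
      (∀ i, ∑ j, b i j ^ 2 ≤ 1) → 1 ≤ K → (∀ j, ∑ i, b i j ^ 2 ≤ K) →
      ∀ y, ∑ z ∈ univ.erase y, (∑ x, b x y * b x z) ^ 2 ≤ c * K * ∑ x, b x y ^ 2) :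
    (Fintype.card ι : ℝ) ≤ (1 + c) * B.rank := by
  set m : ℝ := ((Fintype.card ι : ℕ) : ℝ) with hm
  have hm0 : 0 ≤ m := Nat.cast_nonneg _
  set r : ℝ := ((B.rank : ℕ) : ℝ) with hr
  have hr0 : 0 ≤ r := Nat.cast_nonneg _
  -- it is enough to prove an approximate version
  suffices h : ∀ ε : ℝ, 0 < ε → ε < 1 → m * (1 - ε) ≤ (1 + ε) * ((1 + c) * r) by
    by_contra hcon
    push Not at hcon
    set g : ℝ := m - (1 + c) * r with hg
    have hg0 : 0 < g := by rw [hg]; linarith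
    have hcr : 0 ≤ (1 + c) * r := mul_nonneg (by linarith) hr0
    set t : ℝ := m + (1 + c) * r + 1 with ht
    have ht0 : 0 < t := by rw [ht]; linarith
    have h1 := h (min (1 / 2) (g / (2 * t))) (lt_min (by norm_num) (by positivity))
      (lt_of_le_of_lt (min_le_left _ _) (by norm_num))
    set ε := min (1 / 2) (g / (2 * t)) with hε
    have h2 : ε * (2 * t) ≤ g := by
      have h3 : ε ≤ g / (2 * t) := min_le_right _ _
      rwa [le_div_iff₀ (by positivity)] at h3
    have hε0 : 0 < ε := lt_min (by norm_num) (by positivity)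
    nlinarith
  intro ε hε hε1
  obtain ⟨c', hc', hS⟩ := scaling (a := fun i j => ‖B i j‖ ^ 2) (fun i j => sq_nonneg _)
    (fun i => by have := norm_pos_iff.2 (hd i); positivity) hε
  set R : ι → ℝ := fun i => ∑ l, ‖B i l‖ ^ 2 * c' l with hR
  have hR0 : ∀ i, 0 < R i := fun i => Finset.sum_pos'
    (fun j _ => mul_nonneg (sq_nonneg _) (hc' j).le)
    ⟨i, Finset.mem_univ i, by have := norm_pos_iff.2 (hd i); have := hc' i; positivity⟩
  set W : Matrix ι ι ℂ := Matrix.diagonal (fun i => (((Real.sqrt (R i))⁻¹ : ℝ) : ℂ)) * B *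
    Matrix.diagonal (fun j => ((Real.sqrt (c' j) : ℝ) : ℂ)) with hW
  have hWr : W.rank ≤ B.rank :=
    (Matrix.rank_mul_le_left _ _).trans (Matrix.rank_mul_le_right _ _)
  have hWe : ∀ i j, W i j = (((Real.sqrt (R i))⁻¹ : ℝ) : ℂ) * B i j * ((Real.sqrt (c' j) : ℝ) : ℂ) := by
    intro i j
    rw [hW, Matrix.mul_diagonal, Matrix.diagonal_mul]
  have hWn : ∀ i j, ‖W i j‖ ^ 2 = ‖B i j‖ ^ 2 * c' j / R i := by
    intro i j
    rw [hWe, norm_mul, norm_mul, Complex.norm_real, Complex.norm_real, mul_pow, mul_pow,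
      Real.norm_eq_abs, Real.norm_eq_abs, sq_abs, sq_abs, inv_pow, Real.sq_sqrt (hR0 i).le,
      Real.sq_sqrt (hc' j).le]
    ring
  have hrow : ∀ i, ∑ j, ‖W i j‖ ^ 2 ≤ 1 := by
    intro i
    have h1 : ∑ j, ‖W i j‖ ^ 2 = 1 := by
      rw [Finset.sum_congr rfl fun j _ => hWn i j, ← Finset.sum_div]
      exact div_self (hR0 i).ne'
    exact h1.le
  have hcol : ∀ j, |∑ i, ‖W i j‖ ^ 2 - 1| ≤ ε := by
    intro j
    rw [Finset.sum_congr rfl fun i _ => hWn i j]
    exact hS j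
  obtain ⟨ℓ, hℓ0, hℓs, hℓ⟩ := leverage W
  have key : ∀ y, 1 - ε ≤ (1 + ε) * (1 + c) * ℓ y := by
    intro y
    set S : ℝ := ∑ x, ‖W x y‖ ^ 2 with hSdef
    have hS1 := abs_le.1 (hcol y)
    have hSpos : 0 < S := by linarith [hS1.1]
    have h1 := hℓ (fun x => (starRingEnd ℂ) (W x y)) y
    have h2 : ∑ x, (starRingEnd ℂ) (W x y) * W x y = (S : ℂ) := by
      rw [hSdef]
      push_cast
      refine Finset.sum_congr rfl fun x _ => ?_
      rw [mul_comm, Complex.mul_conj, Complex.normSq_eq_norm_sq]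
      push_cast
      rfl
    rw [h2, Complex.norm_real, Real.norm_eq_abs, sq_abs] at h1
    have h3 : ∑ z, ‖∑ x, (starRingEnd ℂ) (W x y) * W x z‖ ^ 2 ≤ S ^ 2 + c * (1 + ε) * S := by
      rw [← Finset.add_sum_erase _ _ (Finset.mem_univ y), h2, Complex.norm_real, Real.norm_eq_abs,
        sq_abs]
      have h4 := H (fun i j => ‖W i j‖) (1 + ε) (fun i j => norm_nonneg _)
        (fun i j h => by rw [hWe, h, mul_zero, zero_mul, norm_zero]) hrow (by linarith)
        (fun j => by linarith [(abs_le.1 (hcol j)).2]) y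
      have h5 : ∑ z ∈ univ.erase y, ‖∑ x, (starRingEnd ℂ) (W x y) * W x z‖ ^ 2 ≤
          ∑ z ∈ univ.erase y, (∑ x, ‖W x y‖ * ‖W x z‖) ^ 2 := by
        refine Finset.sum_le_sum fun z _ => pow_le_pow_left₀ (norm_nonneg _) ?_ 2
        refine (norm_sum_le _ _).trans (le_of_eq ?_)
        refine Finset.sum_congr rfl fun x _ => ?_
        rw [norm_mul, RCLike.norm_conj]
      linarith
    have h4 : S ^ 2 ≤ ℓ y * (S ^ 2 + c * (1 + ε) * S) :=
      h1.trans (mul_le_mul_of_nonneg_left h3 (hℓ0 y))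
    have h5 : S * S ≤ S * (ℓ y * (S + c * (1 + ε))) := by nlinarith
    have h6 := le_of_mul_le_mul_left h5 hSpos
    have h7 : ℓ y * (S + c * (1 + ε)) ≤ ℓ y * ((1 + ε) + c * (1 + ε)) :=
      mul_le_mul_of_nonneg_left (by linarith [hS1.2]) (hℓ0 y)
    nlinarith [hS1.1]
  have hsum : m * (1 - ε) ≤ (1 + ε) * (1 + c) * ∑ y, ℓ y := by
    have h1 := Finset.sum_le_sum fun y (_ : y ∈ univ) => key y
    rw [Finset.sum_const, Finset.card_univ, nsmul_eq_mul, ← Finset.mul_sum] at h1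
    exact h1
  have hWr' : (W.rank : ℝ) ≤ r := by rw [hr]; exact_mod_cast hWr
  calc m * (1 - ε) ≤ (1 + ε) * (1 + c) * ∑ y, ℓ y := hsum
    _ ≤ (1 + ε) * (1 + c) * r := mul_le_mul_of_nonneg_left (hℓs.trans hWr') (by positivity)
    _ = _ := by ring

end Pool.Agent.W5h94.TR
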