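import Mathlib
import Pool.Agent.W5h94.TR.Main
import Pool.Agent.W5h94.RK.Deg
import Pool.Agent.W5h94.RK.Tau
import Pool.Agent.H16R2.RankAmp2
import Pool.Agent.W552.Emb

/-!
# Rank and matchings for matrices over fields of characteristic zero
-/

set_option autoImplicit false

open Finset Classical

namespace Pool.Agent.W5h94.TR

section Patterns

variable {ι : Type*} [Fintype ι]

/-- the abstract theorem over a field of characteristic zero -/
theorem rank_ge_field {F : Type*} [Field F] [CharZero F] (B : Matrix ι ι F)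
    (hd : ∀ i, B i i ≠ 0) {c : ℝ} (hc : 0 ≤ c)
    (H : ∀ (b : ι → ι → ℝ) (K : ℝ), (∀ i j, 0 ≤ b i j) → (∀ i j, B i j = 0 → b i j = 0) →
      (∀ i, ∑ j, b i j ^ 2 ≤ 1) → 1 ≤ K → (∀ j, ∑ i, b i j ^ 2 ≤ K) →
      ∀ y, ∑ z ∈ univ.erase y, (∑ x, b x y * b x z) ^ 2 ≤ c * K * ∑ x, b x y ^ 2) :
    (Fintype.card ι : ℝ) ≤ (1 + c) * B.rank := by
  obtain ⟨K, σ, hK⟩ := Pool.Agent.W552.exists_subfield_hom
    (Set.range fun p : ι × ι => B p.1 p.2) (Set.countable_range _)
  let B' : Matrix ι ι K := fun i j => ⟨B i j, hK ⟨(i, j), rfl⟩⟩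
  have h1 : B'.map K.subtype = B := by
    ext i j
    rfl
  have h2 : B.rank = B'.rank := by
    rw [← h1]
    exact Pool.Agent.H16R2.RankAmp.rank_map K.subtype B'
  have h3 : (B'.map σ).rank = B'.rank := Pool.Agent.H16R2.RankAmp.rank_map σ B'
  have h4 : ∀ i j, (B'.map σ) i j = 0 ↔ B i j = 0 := by
    intro i j
    rw [Matrix.map_apply, map_eq_zero]
    constructor
    · intro h
      exact congrArg Subtype.val h
    · intro h
      exact Subtype.ext h
  have h5 := rank_ge (B'.map σ) (fun i => by rw [Ne, h4]; exact hd i) hc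
    (fun b K' hb0 hbz => H b K' hb0 (fun i j h => hbz i j ((h4 i j).2 h)))
  rw [h3, ← h2] at h5
  exact h5

/-- the pairs of columns are sparse because few rows meet two columns -/
theorem ineq_of_few {R : ι → ι → Prop} {t : ℕ} (hR : ∀ y z, y ≠ z →
      (univ.filter (fun x => R x y ∧ R x z)).card ≤ t) (b : ι → ι → ℝ) (K : ℝ)
    (hz : ∀ i j, ¬ R i j → b i j = 0) (hrow : ∀ i, ∑ j, b i j ^ 2 ≤ 1) (hK : 1 ≤ K) (y : ι) :
    ∑ z ∈ univ.erase y, (∑ x, b x y * b x z) ^ 2 ≤ t * K * ∑ x, b x y ^ 2 := by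
  have h1 : ∀ z ∈ univ.erase y, (∑ x, b x y * b x z) ^ 2 ≤ t * ∑ x, b x y ^ 2 * b x z ^ 2 := by
    intro z hzy
    have e1 : ∑ x, b x y * b x z = ∑ x ∈ univ.filter (fun x => R x y ∧ R x z), b x y * b x z := by
      symm
      refine Finset.sum_subset (Finset.subset_univ _) fun x _ hx => ?_
      rw [Finset.mem_filter, not_and, not_and_or] at hx
      rcases hx (Finset.mem_univ _) with h | h
      · rw [hz x y h, zero_mul]
      · rw [hz x z h, mul_zero]
    rw [e1]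
    refine sq_sum_le_card_mul_sum_sq.trans ?_
    refine mul_le_mul ?_ ?_ (Finset.sum_nonneg fun _ _ => sq_nonneg _) (Nat.cast_nonneg _)
    · exact_mod_cast hR y z (Finset.ne_of_mem_erase hzy).symm
    · refine (Finset.sum_le_sum_of_subset_of_nonneg (Finset.subset_univ _)
        (fun _ _ _ => sq_nonneg _)).trans (le_of_eq ?_)
      exact Finset.sum_congr rfl fun x _ => by ring
  refine (Finset.sum_le_sum h1).trans ?_
  rw [← Finset.mul_sum, Finset.sum_comm]
  have h2 : ∑ x, ∑ z ∈ univ.erase y, b x y ^ 2 * b x z ^ 2 ≤ ∑ x, b x y ^ 2 := by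
    refine Finset.sum_le_sum fun x _ => ?_
    rw [← Finset.mul_sum]
    refine mul_le_of_le_one_right (sq_nonneg _) ?_
    exact (Finset.sum_le_sum_of_subset_of_nonneg (Finset.subset_univ _)
      (fun _ _ _ => sq_nonneg _)).trans (hrow x)
  have h3 : (0 : ℝ) ≤ t := Nat.cast_nonneg t
  have h4 : 0 ≤ ∑ x, b x y ^ 2 := Finset.sum_nonneg fun _ _ => sq_nonneg _
  calc (t : ℝ) * ∑ x, ∑ z ∈ univ.erase y, b x y ^ 2 * b x z ^ 2 ≤ t * ∑ x, b x y ^ 2 :=
        mul_le_mul_of_nonneg_left h2 h3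
    _ ≤ t * (K * ∑ x, b x y ^ 2) := mul_le_mul_of_nonneg_left (le_mul_of_one_le_left h4 hK) h3
    _ = _ := by ring

/-- the pairs of columns are sparse because the relation is degenerate near a column -/
theorem ineq_of_dgn {R : ι → ι → Prop} {D : ℕ} (y : ι)
    (hR : RK.Dgn R D (univ.filter (fun x => R x y)) (univ.erase y)) (b : ι → ι → ℝ) (K : ℝ)
    (hz : ∀ i j, ¬ R i j → b i j = 0) (hrow : ∀ i, ∑ j, b i j ^ 2 ≤ 1) (hK : 1 ≤ K)
    (hcol : ∀ j, ∑ i, b i j ^ 2 ≤ K) :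
    ∑ z ∈ univ.erase y, (∑ x, b x y * b x z) ^ 2 ≤ 4 * D * K * ∑ x, b x y ^ 2 := by
  obtain ⟨S, hS⟩ : ∃ S : Finset ι, S = univ.filter (fun x => R x y) := ⟨_, rfl⟩
  obtain ⟨T, hT⟩ : ∃ T : Finset ι, T = univ.erase y := ⟨_, rfl⟩
  rw [← hS, ← hT] at hR
  rw [← hT]
  obtain ⟨A, hA1, hA2⟩ := RK.assign R D _ S T rfl hR
  have hK0 : 0 ≤ K := by linarith
  have h1 : ∀ z ∈ T, (∑ x, b x y * b x z) ^ 2 ≤
      2 * (K * ∑ x ∈ S.filter (fun x => R x z ∧ A x z), b x y ^ 2) +
      2 * (D * ∑ x, b x y ^ 2 * b x z ^ 2) := by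
    intro z hzT
    have e1 : ∑ x, b x y * b x z = ∑ x ∈ S.filter (fun x => R x z), b x y * b x z := by
      symm
      refine Finset.sum_subset (Finset.subset_univ _) fun x _ hx => ?_
      rw [Finset.mem_filter, hS, Finset.mem_filter, not_and_or, not_and_or] at hx
      rcases hx with (h | h) | h
      · exact absurd (Finset.mem_univ x) h
      · rw [hz x y h, zero_mul]
      · rw [hz x z h, mul_zero]
    have e2 : ∑ x ∈ S.filter (fun x => R x z), b x y * b x z =
        ∑ x ∈ S.filter (fun x => R x z ∧ A x z), b x y * b x z +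
        ∑ x ∈ S.filter (fun x => R x z ∧ ¬ A x z), b x y * b x z := by
      rw [← Finset.sum_filter_add_sum_filter_not (S.filter (fun x => R x z)) (fun x => A x z),
        Finset.filter_filter, Finset.filter_filter]
    have h2 : (∑ x ∈ S.filter (fun x => R x z ∧ A x z), b x y * b x z) ^ 2 ≤
        K * ∑ x ∈ S.filter (fun x => R x z ∧ A x z), b x y ^ 2 := by
      refine (Finset.sum_mul_sq_le_sq_mul_sq _ _ _).trans ?_
      rw [mul_comm]
      refine mul_le_mul_of_nonneg_right ?_ (Finset.sum_nonneg fun _ _ => sq_nonneg _)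
      exact (Finset.sum_le_sum_of_subset_of_nonneg (Finset.subset_univ _)
        (fun _ _ _ => sq_nonneg _)).trans (hcol z)
    have h3 : (∑ x ∈ S.filter (fun x => R x z ∧ ¬ A x z), b x y * b x z) ^ 2 ≤
        D * ∑ x, b x y ^ 2 * b x z ^ 2 := by
      refine sq_sum_le_card_mul_sum_sq.trans ?_
      refine mul_le_mul ?_ ?_ (Finset.sum_nonneg fun _ _ => sq_nonneg _) (Nat.cast_nonneg _)
      · exact_mod_cast hA2 z hzT
      · refine (Finset.sum_le_sum_of_subset_of_nonneg (Finset.subset_univ _)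
          (fun _ _ _ => sq_nonneg _)).trans (le_of_eq ?_)
        exact Finset.sum_congr rfl fun x _ => by ring
    rw [e1, e2]
    nlinarith [sq_nonneg (∑ x ∈ S.filter (fun x => R x z ∧ A x z), b x y * b x z -
      ∑ x ∈ S.filter (fun x => R x z ∧ ¬ A x z), b x y * b x z)]
  refine (Finset.sum_le_sum h1).trans ?_
  rw [Finset.sum_add_distrib, ← Finset.mul_sum, ← Finset.mul_sum, ← Finset.mul_sum,
    ← Finset.mul_sum]
  have h2 : ∑ z ∈ T, ∑ x ∈ S.filter (fun x => R x z ∧ A x z), b x y ^ 2 ≤ D * ∑ x, b x y ^ 2 := by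
    have e1 : ∑ z ∈ T, ∑ x ∈ S.filter (fun x => R x z ∧ A x z), b x y ^ 2 =
        ∑ x ∈ S, ∑ z ∈ T.filter (fun z => R x z ∧ A x z), b x y ^ 2 := by
      simp only [Finset.sum_filter]
      rw [Finset.sum_comm]
    rw [e1, Finset.mul_sum]
    refine (Finset.sum_le_sum fun x hx => ?_).trans (Finset.sum_le_sum_of_subset_of_nonneg
      (Finset.subset_univ S) fun x _ _ => mul_nonneg (Nat.cast_nonneg D) (sq_nonneg (b x y)))
    rw [Finset.sum_const, nsmul_eq_mul]
    exact mul_le_mul_of_nonneg_right (by exact_mod_cast hA1 x hx) (sq_nonneg _)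
  have h3 : ∑ z ∈ T, ∑ x, b x y ^ 2 * b x z ^ 2 ≤ ∑ x, b x y ^ 2 := by
    rw [Finset.sum_comm]
    refine Finset.sum_le_sum fun x _ => ?_
    rw [← Finset.mul_sum]
    refine mul_le_of_le_one_right (sq_nonneg _) ?_
    exact (Finset.sum_le_sum_of_subset_of_nonneg (Finset.subset_univ _)
      (fun _ _ _ => sq_nonneg _)).trans (hrow x)
  have h4 : 0 ≤ ∑ x, b x y ^ 2 := Finset.sum_nonneg fun _ _ => sq_nonneg _
  have h5 : (0 : ℝ) ≤ D := Nat.cast_nonneg D
  have h6 := mul_le_mul_of_nonneg_left h2 hK0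
  have h7 := mul_le_mul_of_nonneg_left h3 h5
  have h8 : (D : ℝ) * ∑ x, b x y ^ 2 ≤ D * (K * ∑ x, b x y ^ 2) :=
    mul_le_mul_of_nonneg_left (le_mul_of_one_le_left h4 hK) h5
  nlinarith

end Patterns

end Pool.Agent.W5h94.TR
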