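import Mathlib
import Pool.Agent.W5h94.TR.Pat

/-!
# The rank, matchings and vertex covers
-/

set_option autoImplicit false

open Finset Classical

namespace Pool.Agent.W5h94.TR

lemma rank_submatrix_le' {α β α' β' F : Type*} [Field F] [Fintype α] [Fintype β] [Fintype α']
    [Fintype β'] (B : Matrix α β F) (X : α' → α) (Y : β' → β) :
    (B.submatrix X Y).rank ≤ B.rank := by
  obtain ⟨P, Q, h⟩ := Pool.Agent.H16R2.RankAmp.exists_factor B
  have h1 : B.submatrix X Y = P.submatrix X id * Q.submatrix id Y := by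
    ext i j
    rw [Matrix.submatrix_apply, Matrix.mul_apply]
    conv_lhs => rw [h]
    rw [Matrix.mul_apply]
    rfl
  rw [h1]
  refine (Matrix.rank_mul_le_left _ _).trans ?_
  refine (Matrix.rank_le_card_width _).trans ?_
  simp

/-- matrices such that any two columns have at most `t` common rows -/
theorem matching_le_pairs {α β F : Type*} [Fintype α] [Fintype β] [Field F] [CharZero F]
    (B : Matrix α β F) (t : ℕ)
    (hB : ∀ y z, y ≠ z → (univ.filter (fun x => B x y ≠ 0 ∧ B x z ≠ 0)).card ≤ t) (m : ℕ)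
    (X : Fin m → α) (Y : Fin m → β) (hX : Function.Injective X) (hY : Function.Injective Y)
    (hXY : ∀ i, B (X i) (Y i) ≠ 0) : m ≤ (1 + t) * B.rank := by
  have h1 := rank_ge_field (B.submatrix X Y) (fun i => hXY i) (c := (t : ℝ)) (Nat.cast_nonneg t)
    (fun b K _ hz hrow hK _ y => by
      refine ineq_of_few (R := fun i j => B (X i) (Y j) ≠ 0) (t := t) ?_ b K
        (fun i j h => hz i j (not_not.1 h)) hrow hK y
      intro y z hyz
      refine le_trans ?_ (hB (Y y) (Y z) (fun h => hyz (hY h)))
      refine Finset.card_le_card_of_injOn X (fun i hi => ?_) hX.injOn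
      simp only [Finset.coe_filter, Set.mem_setOf_eq, Finset.mem_univ, true_and] at hi ⊢
      exact hi)
  rw [Fintype.card_fin] at h1
  have h2 : ((B.submatrix X Y).rank : ℝ) ≤ B.rank := by exact_mod_cast rank_submatrix_le' B X Y
  have h3 : (m : ℝ) ≤ (1 + t) * B.rank :=
    h1.trans (mul_le_mul_of_nonneg_left h2 (by positivity))
  exact_mod_cast h3

variable {V : Type} [Fintype V]

/-- the matrix `B` has its nonzero entries at the edges of `G` -/
def Fits {F : Type*} [Zero F] (G : SimpleGraph V) (B : Matrix V V F) : Prop :=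
  ∀ x y, B x y ≠ 0 ↔ G.Adj x y

omit [Fintype V] in
lemma dgn_transfer {G : SimpleGraph V} {D m : ℕ} {X Y : Fin m → V} (hX : Function.Injective X)
    (hY : Function.Injective Y) {S T : Finset (Fin m)}
    (h : RK.Dgn (fun x t => G.Adj x t) D (S.image X) (T.image Y)) :
    RK.Dgn (fun i j => G.Adj (X i) (Y j)) D S T := by
  intro S' hS' T' hT' hne
  have h1 := h (S'.image X) (Finset.image_subset_image hS') (T'.image Y)
    (Finset.image_subset_image hT') (by
      rcases hne with h | h
      · exact Or.inl (h.image X)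
      · exact Or.inr (h.image Y))
  rcases h1 with ⟨x, hx, hc⟩ | ⟨t, ht, hc⟩
  · left
    rw [Finset.mem_image] at hx
    obtain ⟨i, hi, rfl⟩ := hx
    refine ⟨i, hi, le_trans ?_ hc⟩
    rw [← Finset.card_image_of_injective _ hY]
    refine Finset.card_le_card fun z hz => ?_
    rw [Finset.mem_image] at hz
    obtain ⟨j, hj, rfl⟩ := hz
    rw [Finset.mem_filter] at hj ⊢
    exact ⟨Finset.mem_image_of_mem _ hj.1, hj.2⟩
  · right
    rw [Finset.mem_image] at ht
    obtain ⟨j, hj, rfl⟩ := ht
    refine ⟨j, hj, le_trans ?_ hc⟩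
    rw [← Finset.card_image_of_injective _ hX]
    refine Finset.card_le_card fun z hz => ?_
    rw [Finset.mem_image] at hz
    obtain ⟨i, hi, rfl⟩ := hz
    rw [Finset.mem_filter] at hi ⊢
    exact ⟨Finset.mem_image_of_mem _ hi.1, hi.2⟩

/-- graphs without `C_{2k}`: matchings between rows and columns -/
theorem matching_le_cycle {F : Type*} [Field F] [CharZero F] (G : SimpleGraph V) {k : ℕ}
    (hk : 2 ≤ k) (hG : (SimpleGraph.cycleGraph (2 * k)).Free G) (B : Matrix V V F)
    (hB : Fits G B) (m : ℕ) (X Y : Fin m → V) (hX : Function.Injective X)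
    (hY : Function.Injective Y) (hXY : ∀ i, G.Adj (X i) (Y i)) : m ≤ (1 + 16 * k) * B.rank := by
  have h1 := rank_ge_field (B.submatrix X Y) (fun i => (hB _ _).2 (hXY i)) (c := 16 * (k : ℝ))
    (by positivity)
    (fun b K _ hz hrow hK hcol y => by
      have h2 := ineq_of_dgn (R := fun i j => G.Adj (X i) (Y j)) (D := 4 * k) y
        (dgn_transfer hX hY (RK.dgn_of_free G hk hG (Y y) _ _ (fun x hx => by
          rw [Finset.mem_image] at hx
          obtain ⟨i, hi, rfl⟩ := hx
          exact ((Finset.mem_filter.1 hi).2).symm))) b K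
        (fun i j h => hz i j (by
          by_contra h'
          exact h ((hB _ _).1 h'))) hrow hK hcol
      refine h2.trans (le_of_eq ?_)
      push_cast
      ring)
  rw [Fintype.card_fin] at h1
  have h2 : ((B.submatrix X Y).rank : ℝ) ≤ B.rank := by exact_mod_cast rank_submatrix_le' B X Y
  have h3 : (m : ℝ) ≤ (1 + 16 * k) * B.rank :=
    h1.trans (mul_le_mul_of_nonneg_left h2 (by positivity))
  exact_mod_cast h3

/-- a maximal matching between rows and columns -/
theorem exists_maximal (G : SimpleGraph V) : ∃ (m : ℕ) (X Y : Fin m → V),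
    Function.Injective X ∧ Function.Injective Y ∧ (∀ i, G.Adj (X i) (Y i)) ∧
    ∀ x y, G.Adj x y → x ∈ Set.range X ∨ y ∈ Set.range Y := by
  let P : ℕ → Prop := fun m => ∃ X Y : Fin m → V,
    Function.Injective X ∧ Function.Injective Y ∧ (∀ i, G.Adj (X i) (Y i))
  have hP0 : P 0 := ⟨Fin.elim0, Fin.elim0, fun i => i.elim0, fun i => i.elim0, fun i => i.elim0⟩
  have hPle : ∀ m, P m → m ≤ Fintype.card V := by
    rintro m ⟨X, _, hX, _⟩
    have := Fintype.card_le_of_injective X hX
    rwa [Fintype.card_fin] at this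
  obtain ⟨X, Y, hX, hY, hXY⟩ := Nat.findGreatest_spec (P := P) (Nat.zero_le (Fintype.card V)) hP0
  refine ⟨_, X, Y, hX, hY, hXY, fun x y hxy => ?_⟩
  by_contra hcon
  rw [not_or] at hcon
  have h1 : P (Nat.findGreatest P (Fintype.card V) + 1) := by
    refine ⟨Fin.cons x X, Fin.cons y Y, ?_, ?_, ?_⟩
    · exact Fin.cons_injective_iff.2 ⟨hcon.1, hX⟩
    · exact Fin.cons_injective_iff.2 ⟨hcon.2, hY⟩
    · intro i
      refine Fin.cases ?_ (fun i => ?_) i
      · exact hxy
      · exact hXY i
  exact Nat.findGreatest_is_greatest (Nat.lt_succ_self _) (hPle _ h1) h1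

/-- **The vertex cover number is at most a constant times the rank.** -/
theorem cover_le_rank {F : Type*} [Field F] [CharZero F] (G : SimpleGraph V) {k : ℕ}
    (hk : 2 ≤ k) (hG : (SimpleGraph.cycleGraph (2 * k)).Free G) (B : Matrix V V F)
    (hB : Fits G B) : ∃ Z : Finset V, (∀ x y, G.Adj x y → x ∈ Z ∨ y ∈ Z) ∧
      Z.card ≤ 2 * (1 + 16 * k) * B.rank := by
  obtain ⟨m, X, Y, hX, hY, hXY, hmax⟩ := exists_maximal G
  have h1 := matching_le_cycle G hk hG B hB m X Y hX hY hXY
  refine ⟨univ.image X ∪ univ.image Y, fun x y hxy => ?_, ?_⟩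
  · rcases hmax x y hxy with ⟨i, rfl⟩ | ⟨i, rfl⟩
    · exact Or.inl (Finset.mem_union_left _ (Finset.mem_image_of_mem _ (Finset.mem_univ _)))
    · exact Or.inr (Finset.mem_union_right _ (Finset.mem_image_of_mem _ (Finset.mem_univ _)))
  · refine (Finset.card_union_le _ _).trans ?_
    have h2 : (univ.image X).card ≤ m := Finset.card_image_le.trans (by simp)
    have h3 : (univ.image Y).card ≤ m := Finset.card_image_le.trans (by simp)
    calc (univ.image X).card + (univ.image Y).card ≤ 2 * m := by omega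
      _ ≤ 2 * ((1 + 16 * k) * B.rank) := Nat.mul_le_mul_left 2 h1
      _ = _ := by ring

/-- the rank is at most twice the vertex cover number, over every field -/
theorem rank_le_cover {F : Type*} [Field F] (G : SimpleGraph V) (B : Matrix V V F)
    (hB : ∀ x y, ¬ G.Adj x y → B x y = 0)
    (Z : Finset V) (hZ : ∀ x y, G.Adj x y → x ∈ Z ∨ y ∈ Z) : B.rank ≤ 2 * Z.card := by
  set D : Matrix V V F := Matrix.diagonal (fun x => if x ∈ Z then (1 : F) else 0) with hD
  have hDr : D.rank ≤ Z.card := by
    rw [hD, Matrix.rank_diagonal, Fintype.card_subtype]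
    refine Finset.card_le_card fun x hx => ?_
    by_contra h
    rw [Finset.mem_filter, if_neg h] at hx
    exact hx.2 rfl
  have h1 : B = D * B + (B - D * B) * D := by
    ext x y
    rw [Matrix.add_apply, Matrix.mul_diagonal, Matrix.sub_apply, hD, Matrix.diagonal_mul]
    by_cases hx : x ∈ Z
    · simp [hx]
    · by_cases hy : y ∈ Z
      · simp [hx, hy]
      · have h2 : B x y = 0 := hB x y fun h => by
          rcases hZ x y h with h | h
          · exact hx h
          · exact hy h
        simp [hx, hy, h2]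
  rw [h1]
  refine (RK.mat_rank_add_le _ _).trans ?_
  have h2 := (Matrix.rank_mul_le_left D B).trans hDr
  have h3 := (Matrix.rank_mul_le_right (B - D * B) D).trans hDr
  omega

end Pool.Agent.W5h94.TR
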