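import Mathlib
import Pool.Agent.W5h94.TR.Cov

/-!
# The rank of matrices without large common neighbourhoods of `s` columns
-/

set_option autoImplicit false

open Finset

namespace Pool.Agent.W5h94.TR

universe u

/-- the common rows of the columns in `J` -/
def com {ι : Type} [Fintype ι] [DecidableEq ι] {F : Type u} [Zero F] [DecidableEq F]
    (B : Matrix ι ι F) (J : Finset ι) : Finset ι :=
  univ.filter (fun x => ∀ y ∈ J, B x y ≠ 0)

lemma mem_com {ι : Type} [Fintype ι] [DecidableEq ι] {F : Type u} [Zero F] [DecidableEq F]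
    (B : Matrix ι ι F) (J : Finset ι) (x : ι) : x ∈ com B J ↔ ∀ y ∈ J, B x y ≠ 0 := by
  unfold com
  rw [Finset.mem_filter]
  exact ⟨fun h => h.2, fun h => ⟨Finset.mem_univ _, h⟩⟩

/-- any `s` columns have at most `t` common rows -/
def Spr {ι : Type} [Fintype ι] [DecidableEq ι] {F : Type u} [Zero F] [DecidableEq F]
    (B : Matrix ι ι F) (s t : ℕ) : Prop :=
  ∀ J : Finset ι, J.card = s → (com B J).card ≤ t

/-- the data: a nonnegative matrix `b` with the zeros of `B`, rows of norm at most `1` and columns of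
squared norm at most `K` -/
structure Dat {ι : Type} [Fintype ι] {F : Type u} [Zero F] (B : Matrix ι ι F)
    (b : ι → ι → ℝ) (K : ℝ) : Prop where
  nonneg : ∀ i j, 0 ≤ b i j
  zero : ∀ i j, B i j = 0 → b i j = 0
  row : ∀ i, ∑ j, b i j ^ 2 ≤ 1
  one_le : 1 ≤ K
  col : ∀ j, ∑ i, b i j ^ 2 ≤ K

/-- the norm bound at sets `J` of `s - 1 - i` columns -/
def NB (s t i : ℕ) (c : ℝ) : Prop :=
  ∀ (F : Type u) [Field F] [CharZero F] [DecidableEq F] (ι : Type) [Fintype ι] [DecidableEq ι]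
    (B : Matrix ι ι F), (∀ i, B i i ≠ 0) → Spr B s t → ∀ (b : ι → ι → ℝ) (K : ℝ), Dat B b K →
    ∀ J : Finset ι, J.card + i + 1 = s → J.Nonempty → ∀ w : ι → ℝ, (∀ x, x ∉ com B J → w x = 0) →
      ∑ z ∈ Jᶜ, (∑ x, w x * b x z) ^ 2 ≤ K * (c * √(B.rank : ℝ) ^ i) * ∑ x, w x ^ 2

/-- the bound for the size -/
def SB (s t : ℕ) (C : ℝ) : Prop :=
  ∀ (F : Type u) [Field F] [CharZero F] [DecidableEq F] (ι : Type) [Fintype ι] [DecidableEq ι]
    (B : Matrix ι ι F), (∀ i, B i i ≠ 0) → Spr B s t → (Fintype.card ι : ℝ) ≤ C * √(B.rank : ℝ) ^ s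

lemma nb_zero (s t : ℕ) : NB.{u} s t 0 t := by
  intro F _ _ _ ι _ _ B _ hs b K hb J hJ _ w hw
  have h1 : ∀ z ∈ Jᶜ, (∑ x, w x * b x z) ^ 2 ≤ t * ∑ x, w x ^ 2 * b x z ^ 2 := by
    intro z hz
    have hzJ : z ∉ J := Finset.mem_compl.1 hz
    have e1 : ∑ x, w x * b x z = ∑ x ∈ com B (insert z J), w x * b x z := by
      symm
      refine Finset.sum_subset (Finset.subset_univ _) fun x _ hx => ?_
      by_cases h2 : B x z = 0
      · rw [hb.zero x z h2, mul_zero]
      · rw [hw x, zero_mul]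
        intro h3
        apply hx
        unfold com at h3 ⊢
        rw [Finset.mem_filter] at h3 ⊢
        refine ⟨Finset.mem_univ _, fun y hy => ?_⟩
        rcases Finset.mem_insert.1 hy with rfl | hy
        · exact h2
        · exact h3.2 y hy
    rw [e1]
    refine sq_sum_le_card_mul_sum_sq.trans ?_
    refine mul_le_mul ?_ ?_ (Finset.sum_nonneg fun _ _ => sq_nonneg _) (Nat.cast_nonneg _)
    · have h2 := hs (insert z J) (by rw [Finset.card_insert_of_notMem hzJ]; omega)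
      exact_mod_cast h2
    · refine (Finset.sum_le_sum_of_subset_of_nonneg (Finset.subset_univ _)
        (fun _ _ _ => sq_nonneg _)).trans (le_of_eq ?_)
      exact Finset.sum_congr rfl fun x _ => by ring
  refine (Finset.sum_le_sum h1).trans ?_
  rw [← Finset.mul_sum, Finset.sum_comm, pow_zero, mul_one]
  have h2 : ∑ x, ∑ z ∈ Jᶜ, w x ^ 2 * b x z ^ 2 ≤ ∑ x, w x ^ 2 := by
    refine Finset.sum_le_sum fun x _ => ?_
    rw [← Finset.mul_sum]
    refine mul_le_of_le_one_right (sq_nonneg _) ?_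
    exact (Finset.sum_le_sum_of_subset_of_nonneg (Finset.subset_univ _)
      (fun _ _ _ => sq_nonneg _)).trans (hb.row x)
  have h3 : (0 : ℝ) ≤ t := Nat.cast_nonneg t
  have h4 : 0 ≤ ∑ x, w x ^ 2 := Finset.sum_nonneg fun _ _ => sq_nonneg _
  calc (t : ℝ) * ∑ x, ∑ z ∈ Jᶜ, w x ^ 2 * b x z ^ 2 ≤ t * ∑ x, w x ^ 2 :=
        mul_le_mul_of_nonneg_left h2 h3
    _ ≤ t * (K * ∑ x, w x ^ 2) :=
        mul_le_mul_of_nonneg_left (le_mul_of_one_le_left h4 hb.one_le) h3
    _ = _ := by ring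

lemma one_le_sqrt_rank {ι : Type} [Fintype ι] [DecidableEq ι] {F : Type u} [Field F]
    (B : Matrix ι ι F) (hd : ∀ i, B i i ≠ 0) (i : ι) : 1 ≤ √(B.rank : ℝ) := by
  rw [Real.one_le_sqrt]
  have h1 : 1 ≤ B.rank := by
    rw [Nat.one_le_iff_ne_zero]
    intro h
    obtain ⟨P, Q, hPQ⟩ := Pool.Agent.H16R2.RankAmp.exists_factor B
    have he : IsEmpty (Fin B.rank) := by rw [h]; infer_instance
    apply hd i
    have h2 : B i i = (P * Q) i i := by rw [← hPQ]
    rw [h2, Matrix.mul_apply]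
    exact Finset.sum_of_isEmpty _
  exact_mod_cast h1

/-- from the norm bound at one column to the bound for the size -/
lemma sb_of_nb {s t i : ℕ} (hs : s = i + 2) {c : ℝ} (hc : 0 ≤ c) (h : NB.{u} s t i c) :
    SB.{u} s t (1 + c) := by
  intro F _ _ _ ι _ _ B hd hspr
  rcases isEmpty_or_nonempty ι with he | ⟨⟨i0⟩⟩
  · rw [Fintype.card_eq_zero]
    push_cast
    positivity
  have hρ := one_le_sqrt_rank B hd i0
  set ρ := √(B.rank : ℝ) with hρdef
  have hρi : (0 : ℝ) ≤ ρ ^ i := by positivity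
  have h1 := rank_ge_field B hd (c := c * ρ ^ i) (by positivity)
    (fun b K hb0 hz hrow hK hcol y => by
      have h2 := h F ι B hd hspr b K ⟨hb0, hz, hrow, hK, hcol⟩ {y}
        (by rw [Finset.card_singleton]; omega) ⟨y, Finset.mem_singleton_self y⟩ (fun x => b x y)
        (fun x hx => by
          apply hz
          by_contra h3
          apply hx
          unfold com
          rw [Finset.mem_filter]
          refine ⟨Finset.mem_univ _, fun y' hy' => ?_⟩
          rw [Finset.mem_singleton.1 hy']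
          exact h3)
      refine le_trans (le_of_eq ?_) (h2.trans (le_of_eq ?_))
      · refine Finset.sum_congr ?_ fun _ _ => rfl
        ext z
        simp
      · rw [← hρdef]
        ring)
  have h2 : ρ ^ 2 = (B.rank : ℝ) := Real.sq_sqrt (Nat.cast_nonneg _)
  have h3 : 1 ≤ ρ ^ i := one_le_pow₀ hρ
  calc (Fintype.card ι : ℝ) ≤ (1 + c * ρ ^ i) * B.rank := h1
    _ ≤ (ρ ^ i + c * ρ ^ i) * B.rank := by
        refine mul_le_mul_of_nonneg_right (by linarith) (Nat.cast_nonneg _)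
    _ = (1 + c) * ρ ^ s := by
        rw [← h2, hs, pow_add]
        ring

/-- common neighbourhoods are small -/
lemma card_com_le {s t i : ℕ} {C : ℝ} (hC : 0 ≤ C) (h : SB.{u} (i + 2) t C) {F : Type u} [Field F]
    [CharZero F] [DecidableEq F] {ι : Type} [Fintype ι] [DecidableEq ι] (B : Matrix ι ι F)
    (hd : ∀ i, B i i ≠ 0) (hspr : Spr B s t) (J : Finset ι) (hJ : J.card + (i + 2) = s) :
    ((com B J).card : ℝ) ≤ s + C * √(B.rank : ℝ) ^ (i + 2) := by
  set A : Finset ι := com B J \ J with hA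
  let M : Matrix {x // x ∈ A} {x // x ∈ A} F := B.submatrix Subtype.val Subtype.val
  have hM : Spr M (i + 2) t := by
    intro J' hJ'
    have hdis : Disjoint J (J'.map (Function.Embedding.subtype _)) := by
      rw [Finset.disjoint_left]
      intro x hx hx'
      rw [Finset.mem_map] at hx'
      obtain ⟨y, _, rfl⟩ := hx'
      exact (Finset.mem_sdiff.1 y.2).2 hx
    have h1 := hspr (J ∪ J'.map (Function.Embedding.subtype _)) (by
      rw [Finset.card_union_of_disjoint hdis, Finset.card_map, hJ']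
      exact hJ)
    refine le_trans ?_ h1
    refine Finset.card_le_card_of_injOn (fun x => (x : ι)) (fun x hx => ?_)
      Subtype.val_injective.injOn
    rw [Finset.mem_coe] at hx ⊢
    unfold com at hx ⊢
    rw [Finset.mem_filter] at hx ⊢
    refine ⟨Finset.mem_univ _, fun y hy => ?_⟩
    rcases Finset.mem_union.1 hy with hy | hy
    · have h2 := (Finset.mem_sdiff.1 x.2).1
      unfold com at h2
      exact (Finset.mem_filter.1 h2).2 y hy
    · rw [Finset.mem_map] at hy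
      obtain ⟨y', hy', rfl⟩ := hy
      exact hx.2 y' hy'
  have h1 := h F {x // x ∈ A} M (fun x => hd x) hM
  rw [Fintype.card_coe] at h1
  have h2 : √(M.rank : ℝ) ≤ √(B.rank : ℝ) := by
    refine Real.sqrt_le_sqrt ?_
    exact_mod_cast rank_submatrix_le' B _ _
  have h3 : (A.card : ℝ) ≤ C * √(B.rank : ℝ) ^ (i + 2) :=
    h1.trans (mul_le_mul_of_nonneg_left (pow_le_pow_left₀ (Real.sqrt_nonneg _) h2 _) hC)
  have h4 : (com B J).card ≤ A.card + J.card := by
    rw [hA]
    have := Finset.card_le_card_sdiff_add_card (s := com B J) (t := J)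
    omega
  have h5 : ((com B J).card : ℝ) ≤ A.card + J.card := by exact_mod_cast h4
  have h6 : (J.card : ℝ) ≤ s := by
    have : J.card ≤ s := by omega
    exact_mod_cast this
  linarith

/-- the inductive step for the norm bound -/
lemma nb_succ {s t i : ℕ} {c C : ℝ} (hc : 0 ≤ c) (hC : 0 ≤ C) (h : NB.{u} s t i c)
    (h' : SB.{u} (i + 2) t C) : NB.{u} s t (i + 1) ((1 + c) * (s + C)) := by
  intro F _ _ _ ι _ _ B hd hspr b K hb J hJ hJne w hw
  obtain ⟨i0, _⟩ := hJne
  have hρ := one_le_sqrt_rank B hd i0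
  have hcard := card_com_le hC h' B hd hspr J (by omega)
  set ρ := √(B.rank : ℝ) with hρdef
  set A := com B J with hA
  have hK := hb.one_le
  have hρi : (1 : ℝ) ≤ ρ ^ i := one_le_pow₀ hρ
  have hs1 : (1 : ℝ) ≤ s := by
    have : 1 ≤ s := by omega
    exact_mod_cast this
  -- the Gram matrix
  set wz : ι → ι → ℝ := fun z x => if x ∈ A then b x z else 0 with hwz
  set G : ι → ι → ℝ := fun z z' => ∑ x, wz z x * b x z' with hG
  set S : ι → ℝ := fun z => ∑ x, wz z x ^ 2 with hS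
  have hS0 : ∀ z, 0 ≤ S z := fun z => Finset.sum_nonneg fun _ _ => sq_nonneg _
  have hGzz : ∀ z, G z z = S z := by
    intro z
    rw [hG, hS]
    simp only
    refine Finset.sum_congr rfl fun x _ => ?_
    rw [hwz]
    simp only
    split_ifs
    · ring
    · ring
  have hSK : ∀ z, S z ≤ K := by
    intro z
    refine le_trans (Finset.sum_le_sum fun x _ => ?_) (hb.col z)
    rw [hwz]
    simp only
    split_ifs
    · exact le_rfl
    · rw [zero_pow two_ne_zero]
      exact sq_nonneg _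
  have hGrow : ∀ z ∈ Jᶜ, ∑ z' ∈ Jᶜ, G z z' ^ 2 ≤ K * (1 + c) * ρ ^ i * S z := by
    intro z hz
    have hzJ : z ∉ J := Finset.mem_compl.1 hz
    have e1 : ∑ z' ∈ Jᶜ, G z z' ^ 2 = G z z ^ 2 + ∑ z' ∈ (insert z J)ᶜ, G z z' ^ 2 := by
      rw [← Finset.add_sum_erase _ _ hz]
      congr 1
      refine Finset.sum_congr ?_ fun _ _ => rfl
      ext y
      rw [Finset.mem_erase, Finset.mem_compl, Finset.mem_compl, Finset.mem_insert, not_or]
    have h1 := h F ι B hd hspr b K hb (insert z J)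
      (by rw [Finset.card_insert_of_notMem hzJ]; omega) ⟨z, Finset.mem_insert_self z J⟩ (wz z)
      (fun x hx => by
        rw [hwz]
        simp only
        split_ifs with hxA
        · apply hb.zero
          by_contra h2
          apply hx
          rw [hA] at hxA
          unfold com at hxA ⊢
          rw [Finset.mem_filter] at hxA ⊢
          refine ⟨Finset.mem_univ _, fun y hy => ?_⟩
          rcases Finset.mem_insert.1 hy with rfl | hy
          · exact h2
          · exact hxA.2 y hy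
        · rfl)
    rw [e1, hGzz]
    have h2 : S z ^ 2 ≤ K * S z := by nlinarith [hSK z, hS0 z]
    have h3 : K * S z ≤ K * (ρ ^ i * S z) :=
      mul_le_mul_of_nonneg_left (le_mul_of_one_le_left (hS0 z) hρi) (by linarith)
    have h4 : ∑ z' ∈ (insert z J)ᶜ, G z z' ^ 2 ≤ K * (c * ρ ^ i) * S z := h1
    nlinarith
  have hSsum : ∑ z ∈ Jᶜ, S z ≤ A.card := by
    rw [hS]
    simp only
    rw [Finset.sum_comm]
    have h1 : ∀ x, ∑ z ∈ Jᶜ, wz z x ^ 2 ≤ if x ∈ A then 1 else 0 := by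
      intro x
      rw [hwz]
      simp only
      split_ifs
      · exact (Finset.sum_le_sum_of_subset_of_nonneg (Finset.subset_univ _)
          (fun _ _ _ => sq_nonneg _)).trans (hb.row x)
      · simp
    refine (Finset.sum_le_sum fun x _ => h1 x).trans (le_of_eq ?_)
    rw [Finset.sum_ite_mem, Finset.univ_inter]
    simp
  set c' : ℝ := (1 + c) * (s + C) with hc'
  have hc'1 : 1 ≤ c' := by rw [hc']; nlinarith
  set g : ℝ := K * (c' * ρ ^ (i + 1)) with hg
  have hg0 : 0 ≤ g := by rw [hg]; positivity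
  have hGG : ∑ z ∈ Jᶜ, ∑ z' ∈ Jᶜ, G z z' ^ 2 ≤ g ^ 2 := by
    have h1 : ∑ z ∈ Jᶜ, ∑ z' ∈ Jᶜ, G z z' ^ 2 ≤ K * (1 + c) * ρ ^ i * ∑ z ∈ Jᶜ, S z := by
      rw [Finset.mul_sum]
      exact Finset.sum_le_sum hGrow
    have h2 : (s : ℝ) + C * ρ ^ (i + 2) ≤ (s + C) * ρ ^ (i + 2) := by
      have h3 : (1 : ℝ) ≤ ρ ^ (i + 2) := one_le_pow₀ hρ
      nlinarith
    have h3 : ∑ z ∈ Jᶜ, S z ≤ (s + C) * ρ ^ (i + 2) := (hSsum.trans hcard).trans h2
    have h4 : (0 : ℝ) ≤ K * (1 + c) * ρ ^ i := by positivity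
    have h5 := h1.trans (mul_le_mul_of_nonneg_left h3 h4)
    refine h5.trans ?_
    have e1 : K * (1 + c) * ρ ^ i * ((s + C) * ρ ^ (i + 2)) = K * c' * (ρ ^ (i + 1)) ^ 2 := by
      rw [hc']
      ring
    rw [e1, hg]
    have h6 : K * c' ≤ (K * c') ^ 2 := by
      have : 1 ≤ K * c' := by nlinarith
      nlinarith
    have h7 : (0 : ℝ) ≤ (ρ ^ (i + 1)) ^ 2 := by positivity
    calc K * c' * (ρ ^ (i + 1)) ^ 2 ≤ (K * c') ^ 2 * (ρ ^ (i + 1)) ^ 2 :=
          mul_le_mul_of_nonneg_right h6 h7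
      _ = _ := by ring
  -- the vector
  set uu : ι → ℝ := fun z => ∑ x, w x * b x z with huu
  set U : ℝ := ∑ z ∈ Jᶜ, uu z ^ 2 with hU
  have hU0 : 0 ≤ U := Finset.sum_nonneg fun _ _ => sq_nonneg _
  set v : ι → ℝ := fun x => if x ∈ A then ∑ z ∈ Jᶜ, b x z * uu z else 0 with hv
  have hUv : U = ∑ x, w x * v x := by
    have e1 : U = ∑ z ∈ Jᶜ, ∑ x, w x * b x z * uu z := by
      rw [hU]
      refine Finset.sum_congr rfl fun z _ => ?_
      rw [← Finset.sum_mul, sq]
    rw [e1, Finset.sum_comm]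
    refine Finset.sum_congr rfl fun x _ => ?_
    rw [hv]
    simp only
    split_ifs with hx
    · rw [Finset.mul_sum]
      exact Finset.sum_congr rfl fun z _ => by ring
    · rw [hw x hx]
      simp
  have hV : ∑ x, v x ^ 2 = ∑ p ∈ Jᶜ ×ˢ Jᶜ, (uu p.1 * uu p.2) * G p.1 p.2 := by
    rw [Finset.sum_product]
    have e1 : ∀ x, v x ^ 2 = ∑ z ∈ Jᶜ, ∑ z' ∈ Jᶜ, (uu z * uu z') * (wz z x * b x z') := by
      intro x
      rw [hv, hwz]
      simp only
      split_ifs with hx
      · rw [sq, Finset.sum_mul_sum]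
        refine Finset.sum_congr rfl fun z _ => Finset.sum_congr rfl fun z' _ => ?_
        ring
      · simp
    rw [Finset.sum_congr rfl fun x _ => e1 x, Finset.sum_comm]
    refine Finset.sum_congr rfl fun z _ => ?_
    rw [Finset.sum_comm]
    refine Finset.sum_congr rfl fun z' _ => ?_
    rw [hG]
    simp only
    exact (Finset.mul_sum _ _ _).symm
  have hV0 : 0 ≤ ∑ x, v x ^ 2 := Finset.sum_nonneg fun _ _ => sq_nonneg _
  have hVle : ∑ x, v x ^ 2 ≤ U * g := by
    refine abs_le_of_sq_le_sq' ?_ (mul_nonneg hU0 hg0) |>.2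
    rw [hV]
    refine (Finset.sum_mul_sq_le_sq_mul_sq _ _ _).trans ?_
    have e1 : ∑ p ∈ Jᶜ ×ˢ Jᶜ, (uu p.1 * uu p.2) ^ 2 = U * U := by
      rw [Finset.sum_product, hU, Finset.sum_mul_sum]
      refine Finset.sum_congr rfl fun z _ => Finset.sum_congr rfl fun z' _ => ?_
      ring
    have e2 : ∑ p ∈ Jᶜ ×ˢ Jᶜ, G p.1 p.2 ^ 2 = ∑ z ∈ Jᶜ, ∑ z' ∈ Jᶜ, G z z' ^ 2 := by
      rw [Finset.sum_product]
    rw [e1, e2]
    calc U * U * ∑ z ∈ Jᶜ, ∑ z' ∈ Jᶜ, G z z' ^ 2 ≤ U * U * g ^ 2 :=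
          mul_le_mul_of_nonneg_left hGG (mul_nonneg hU0 hU0)
      _ = _ := by ring
  have hUU : U ^ 2 ≤ (∑ x, w x ^ 2) * (U * g) := by
    have h1 : U ^ 2 ≤ (∑ x, w x ^ 2) * ∑ x, v x ^ 2 := by
      conv_lhs => rw [hUv]
      exact Finset.sum_mul_sq_le_sq_mul_sq _ _ _
    exact h1.trans (mul_le_mul_of_nonneg_left hVle (Finset.sum_nonneg fun _ _ => sq_nonneg _))
  have hW0 : 0 ≤ ∑ x, w x ^ 2 := Finset.sum_nonneg fun _ _ => sq_nonneg _
  change U ≤ g * ∑ x, w x ^ 2
  rcases eq_or_lt_of_le hU0 with h0 | h0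
  · rw [← h0]
    exact mul_nonneg hg0 hW0
  · have h1 : U * U ≤ U * (g * ∑ x, w x ^ 2) := by nlinarith
    exact le_of_mul_le_mul_left h1 h0

end Pool.Agent.W5h94.TR
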