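import Mathlib
import Pool.Agent.W5h94.TR.Kst

/-!
# Graphs without `K_{s,t}`: rank, vertex covers and edges
-/

set_option autoImplicit false

open Finset Classical

namespace Pool.Agent.W5h94.TR

universe u

/-- the bound for the size, by induction -/
theorem exists_sb (t : ℕ) : ∀ s : ℕ, 2 ≤ s → ∃ C : ℝ, 0 ≤ C ∧ SB.{u} s t C := by
  intro s
  induction s using Nat.strong_induction_on with
  | _ s ih =>
  intro hs
  have h1 : ∀ i, i + 2 ≤ s → ∃ c : ℝ, 0 ≤ c ∧ NB.{u} s t i c := by
    intro i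
    induction i with
    | zero => exact fun _ => ⟨t, Nat.cast_nonneg t, nb_zero s t⟩
    | succ i hi =>
      intro h
      obtain ⟨c, hc, hN⟩ := hi (by omega)
      obtain ⟨C, hC, hS⟩ := ih (i + 2) (by omega) (by omega)
      exact ⟨(1 + c) * (s + C), by positivity, nb_succ hc hC hN hS⟩
  obtain ⟨c, hc, hN⟩ := h1 (s - 2) (by omega)
  exact ⟨1 + c, by positivity, sb_of_nb (by omega) hc hN⟩

variable {V : Type} [Fintype V]

omit [Fintype V] in
/-- a complete bipartite subgraph -/
lemma contains (G : SimpleGraph V) {s t : ℕ} (S T : Finset V) (hS : S.card = s) (hT : t ≤ T.card)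
    (h : ∀ a ∈ S, ∀ b ∈ T, G.Adj a b) :
    (completeBipartiteGraph (Fin s) (Fin t)).IsContained G := by
  obtain ⟨T', hT', hTc⟩ := Finset.exists_subset_card_eq hT
  let e1 : Fin s ≃ {x // x ∈ S} := (S.equivFinOfCardEq hS).symm
  let e2 : Fin t ≃ {x // x ∈ T'} := (T'.equivFinOfCardEq hTc).symm
  let f : Fin s ⊕ Fin t → V := Sum.elim (fun i => (e1 i : V)) (fun j => (e2 j : V))
  have hadj : ∀ i j, G.Adj (e1 i : V) (e2 j : V) := fun i j => h _ (e1 i).2 _ (hT' (e2 j).2)
  refine ⟨⟨⟨f, ?_⟩, ?_⟩⟩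
  · intro a b hab
    rcases a with i | i <;> rcases b with j | j
    · simp [completeBipartiteGraph] at hab
    · exact hadj i j
    · exact (hadj j i).symm
    · simp [completeBipartiteGraph] at hab
  · intro a b hab
    rcases a with i | i <;> rcases b with j | j
    · exact congrArg Sum.inl (e1.injective (Subtype.ext hab))
    · exact absurd hab (hadj i j).ne
    · exact absurd hab (hadj j i).ne'
    · exact congrArg Sum.inr (e2.injective (Subtype.ext hab))

lemma codeg_lt {G : SimpleGraph V} {s t : ℕ}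
    (hG : (completeBipartiteGraph (Fin s) (Fin t)).Free G) (S : Finset V) (hS : S.card = s) :
    (univ.filter (fun v => ∀ a ∈ S, G.Adj v a)).card < t := by
  by_contra h
  push Not at h
  refine hG (contains G S _ hS h ?_)
  intro a ha b hb
  exact ((Finset.mem_filter.1 hb).2 a ha).symm

/-- matchings between rows and columns -/
theorem matching_le_kst {s t : ℕ} (hs : 2 ≤ s) : ∃ C : ℝ, 0 ≤ C ∧
    ∀ (V : Type) [Fintype V] (G : SimpleGraph V),
    (completeBipartiteGraph (Fin s) (Fin t)).Free G → ∀ (F : Type u) [Field F] [CharZero F]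
    (B : Matrix V V F), Fits G B → ∀ (m : ℕ) (X Y : Fin m → V), Function.Injective X →
    Function.Injective Y → (∀ i, G.Adj (X i) (Y i)) → (m : ℝ) ≤ C * √(B.rank : ℝ) ^ s := by
  obtain ⟨C, hC, h⟩ := exists_sb.{u} t s hs
  refine ⟨C, hC, ?_⟩
  intro V _ G hG F _ _ B hB m X Y hX hY hXY
  have h1 := h F (Fin m) (B.submatrix X Y) (fun i => (hB _ _).2 (hXY i)) (by
    intro J hJ
    have h2 := codeg_lt hG (J.image Y) (by rw [Finset.card_image_of_injective _ hY, hJ])
    refine le_trans ?_ h2.le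
    refine Finset.card_le_card_of_injOn X (fun i hi => ?_) hX.injOn
    rw [Finset.mem_coe] at hi ⊢
    rw [mem_com] at hi
    rw [Finset.mem_filter]
    refine ⟨Finset.mem_univ _, fun a ha => ?_⟩
    rw [Finset.mem_image] at ha
    obtain ⟨j, hj, rfl⟩ := ha
    exact (hB _ _).1 (hi j hj))
  rw [Fintype.card_fin] at h1
  refine h1.trans (mul_le_mul_of_nonneg_left (pow_le_pow_left₀ (Real.sqrt_nonneg _) ?_ _) hC)
  refine Real.sqrt_le_sqrt ?_
  exact_mod_cast rank_submatrix_le' B X Y

/-- the theorem of Kővári, Sós and Turán for the degrees of the vertices in `Z` -/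
lemma kst {G : SimpleGraph V} {s t : ℕ} (hs : 1 ≤ s)
    (hG : (completeBipartiteGraph (Fin s) (Fin t)).Free G) (Z : Finset V) :
    ((∑ v, ((Z.filter (fun z => G.Adj v z)).card + 1 - s) : ℕ) : ℝ) ^ s ≤
      (Fintype.card V : ℝ) ^ (s - 1) * (t * (Z.card : ℝ) ^ s) := by
  obtain ⟨s', rfl⟩ : ∃ s', s = s' + 1 := ⟨s - 1, by omega⟩
  rw [Nat.add_sub_cancel, Nat.cast_sum]
  refine (pow_sum_le_card_mul_sum_pow (fun i _ => Nat.cast_nonneg _) s').trans ?_
  rw [Finset.card_univ]
  refine mul_le_mul_of_nonneg_left ?_ (by positivity)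
  have h1 : ∀ v, (((Z.filter (fun z => G.Adj v z)).card + 1 - (s' + 1)) ^ (s' + 1)) ≤
      (univ.filter (fun f : Fin (s' + 1) ↪ {z // z ∈ Z} => ∀ i, G.Adj v (f i))).card := by
    intro v
    refine (Nat.pow_sub_le_descFactorial _ _).trans ?_
    have e1 : ((Z.filter (fun z => G.Adj v z)).card).descFactorial (s' + 1) =
        Fintype.card (Fin (s' + 1) ↪ {z // z ∈ Z.filter (fun z => G.Adj v z)}) := by
      rw [Fintype.card_embedding_eq, Fintype.card_fin, Fintype.card_coe]
    rw [e1, ← Finset.card_univ]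
    let ι0 : {z // z ∈ Z.filter (fun z => G.Adj v z)} ↪ {z // z ∈ Z} :=
      ⟨fun z => ⟨z.1, (Finset.mem_filter.1 z.2).1⟩, fun a b h => Subtype.ext
        (congrArg (fun z : {z // z ∈ Z} => (z : V)) h)⟩
    refine Finset.card_le_card_of_injOn (fun f => f.trans ι0) (fun f _ => ?_) ?_
    · rw [Finset.mem_coe, Finset.mem_filter]
      exact ⟨Finset.mem_univ _, fun i => (Finset.mem_filter.1 (f i).2).2⟩
    · intro f _ g _ hfg
      ext i
      have := DFunLike.congr_fun hfg i
      exact congrArg (fun z : {z // z ∈ Z} => (z : V)) this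
  have h2 : ∑ v, (univ.filter (fun f : Fin (s' + 1) ↪ {z // z ∈ Z} => ∀ i, G.Adj v (f i))).card ≤
      t * Z.card ^ (s' + 1) := by
    simp only [Finset.card_filter]
    rw [Finset.sum_comm]
    have h3 : ∀ f : Fin (s' + 1) ↪ {z // z ∈ Z}, ∑ v, (if ∀ i, G.Adj v (f i) then 1 else 0) ≤ t := by
      intro f
      rw [← Finset.card_filter]
      have h4 := codeg_lt hG (univ.image (fun i => (f i : V))) (by
        have e : (fun i => (f i : V)) = Subtype.val ∘ f := rfl
        rw [e, Finset.card_image_of_injective _ (Subtype.val_injective.comp f.injective),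
          Finset.card_univ, Fintype.card_fin])
      refine le_trans (Finset.card_le_card fun v hv => ?_) h4.le
      rw [Finset.mem_filter] at hv ⊢
      refine ⟨Finset.mem_univ _, fun a ha => ?_⟩
      rw [Finset.mem_image] at ha
      obtain ⟨i, _, rfl⟩ := ha
      exact hv.2 i
    refine (Finset.sum_le_sum fun f _ => h3 f).trans ?_
    rw [Finset.sum_const, smul_eq_mul, mul_comm, Finset.card_univ, Fintype.card_embedding_eq,
      Fintype.card_fin, Fintype.card_coe]
    exact Nat.mul_le_mul_left _ (Nat.descFactorial_le_pow _ _)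
  have h3 := (Finset.sum_le_sum fun v (_ : v ∈ univ) => h1 v).trans h2
  have h4 : ((∑ v, ((Z.filter (fun z => G.Adj v z)).card + 1 - (s' + 1)) ^ (s' + 1) : ℕ) : ℝ) ≤
      ((t * Z.card ^ (s' + 1) : ℕ) : ℝ) := by exact_mod_cast h3
  push_cast at h4 ⊢
  exact h4

end Pool.Agent.W5h94.TR
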