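import Mathlib
import Pool.Agent.W5h94.TR.Cov
import Pool.Agent.W5h94.RK.Top
import Pool.Agent.W5h94.RK.CharP

/-!
# The number of edges in terms of the rank
-/

set_option autoImplicit false

open Finset Classical

namespace Pool.Agent.W5h94.TR

universe u

/-- the number of edges of a graph without `C_{2k}` in terms of a vertex cover -/
theorem edges_of_cover {k : ℕ} (hk : 2 ≤ k) (C : ℕ)
    (hC : ∀ (V : Type) [Finite V] (X : SimpleGraph V), (SimpleGraph.cycleGraph (2 * k)).Free X →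
      X.edgeSet.ncard ^ k ≤ C * Nat.card V ^ (k + 1)) {V : Type} [Fintype V] (G : SimpleGraph V)
    (hG : (SimpleGraph.cycleGraph (2 * k)).Free G) (Z : Finset V)
    (hZ : ∀ x y, G.Adj x y → x ∈ Z ∨ y ∈ Z) :
    G.edgeSet.ncard ^ k ≤ C * 2 ^ (3 * k + 1) * (Z.card * Fintype.card V ^ k) := by
  refine le_trans (Nat.pow_le_pow_left ?_ k) (RK.deg_sum_le G hk hG C hC Z)
  have h1 := RK.dartsAt_le G Z
  have h2 : RK.dartsAt G Z = RK.darts G := by
    unfold RK.dartsAt RK.darts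
    refine Finset.sum_congr rfl fun x _ => ?_
    congr 1
    ext y
    rw [Finset.mem_filter, Finset.mem_filter]
    exact ⟨fun h => ⟨h.1, h.2.1⟩, fun h => ⟨h.1, h.2, hZ x y h.2⟩⟩
  rw [h2, RK.darts_eq] at h1
  omega

theorem exact (k : ℕ) (hk : 2 ≤ k) : ∃ C : ℕ, ∀ (V : Type) [Fintype V] (G : SimpleGraph V),
    (SimpleGraph.cycleGraph (2 * k)).Free G → ∀ (F : Type u) [Field F] [CharZero F]
    (B : Matrix V V F), (∀ x y, B x y ≠ 0 ↔ G.Adj x y) →
    (∃ Z : Finset V, (∀ x y, G.Adj x y → x ∈ Z ∨ y ∈ Z) ∧ Z.card ≤ 2 * (1 + 16 * k) * B.rank) ∧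
    (∀ Z : Finset V, (∀ x y, G.Adj x y → x ∈ Z ∨ y ∈ Z) → B.rank ≤ 2 * Z.card) ∧
    G.edgeSet.ncard ^ k ≤ C * B.rank * Fintype.card V ^ k := by
  obtain ⟨C, hC⟩ := RK.bondy_simonovits k hk
  refine ⟨C * 2 ^ (3 * k + 1) * (2 * (1 + 16 * k)), fun V _ G hG F _ _ B hB => ?_⟩
  obtain ⟨Z, hZ, hZc⟩ := cover_le_rank G hk hG B hB
  refine ⟨⟨Z, hZ, hZc⟩, fun Z' hZ' => rank_le_cover G B (fun x y h => ?_) Z' hZ', ?_⟩
  · by_contra h'
    exact h ((hB x y).1 h')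
  · refine (edges_of_cover hk C hC G hG Z hZ).trans ?_
    calc _ ≤ C * 2 ^ (3 * k + 1) * (2 * (1 + 16 * k) * B.rank * Fintype.card V ^ k) :=
          Nat.mul_le_mul_left _ (Nat.mul_le_mul_right _ hZc)
      _ = _ := by ring

end Pool.Agent.W5h94.TR
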