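import Mathlib
import Pool.Agent.W5h94.TR.KstTop
import Pool.Agent.W5h94.TR.Top

/-!
# Graphs without `K_{s,t}`: the final form
-/

set_option autoImplicit false

open Finset Classical

namespace Pool.Agent.W5h94.TR

universe u

lemma sqrt_pow_eq (r : ℝ) (hr : 0 ≤ r) (s : ℕ) : √r ^ s = r ^ ((s : ℝ) / 2) := by
  rw [Real.sqrt_eq_rpow, ← Real.rpow_natCast (r ^ (1 / 2 : ℝ)) s, ← Real.rpow_mul hr]
  congr 1
  ring

lemma edges_le_deg {V : Type} [Fintype V] (G : SimpleGraph V) (Z : Finset V)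
    (hZ : ∀ x y, G.Adj x y → x ∈ Z ∨ y ∈ Z) :
    G.edgeSet.ncard ≤ ∑ v, (Z.filter (fun z => G.Adj v z)).card := by
  have h1 := RK.dartsAt_le G Z
  have h2 : RK.dartsAt G Z = RK.darts G := by
    unfold RK.dartsAt RK.darts
    refine Finset.sum_congr rfl fun x _ => ?_
    congr 1
    ext y
    rw [Finset.mem_filter, Finset.mem_filter]
    exact ⟨fun h => ⟨h.1, h.2.1⟩, fun h => ⟨h.1, h.2, hZ x y h.2⟩⟩
  have h3 : ∑ z ∈ Z, (univ.filter (fun y => G.Adj z y)).card =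
      ∑ v, (Z.filter (fun z => G.Adj v z)).card := by
    simp only [Finset.card_filter]
    rw [Finset.sum_comm]
    simp only [G.adj_comm]
  rw [h2, RK.darts_eq] at h1
  omega

theorem kst_rank (s t : ℕ) (hs : 2 ≤ s) : ∃ C : ℝ, 0 < C ∧
    ∀ (V : Type) [Fintype V] (G : SimpleGraph V),
    (completeBipartiteGraph (Fin s) (Fin t)).Free G → ∀ (F : Type u) [Field F] [CharZero F]
    (B : Matrix V V F), (∀ x y, B x y ≠ 0 ↔ G.Adj x y) →
    (∃ Z : Finset V, (∀ x y, G.Adj x y → x ∈ Z ∨ y ∈ Z) ∧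
      (Z.card : ℝ) ≤ C * (B.rank : ℝ) ^ ((s : ℝ) / 2)) ∧
    (∀ Z : Finset V, (∀ x y, G.Adj x y → x ∈ Z ∨ y ∈ Z) → B.rank ≤ 2 * Z.card) ∧
    (G.edgeSet.ncard : ℝ) ≤ C * (Fintype.card V +
      (Fintype.card V : ℝ) ^ (1 - 1 / (s : ℝ)) * (B.rank : ℝ) ^ ((s : ℝ) / 2)) := by
  obtain ⟨C0, hC0, h⟩ := matching_le_kst.{u} (s := s) (t := t) hs
  refine ⟨2 * C0 * (t + 1) + 2 * C0 + s, by positivity, ?_⟩
  intro V _ G hG F _ _ B hB
  obtain ⟨m, X, Y, hX, hY, hXY, hmax⟩ := exists_maximal G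
  have h1 := h V G hG F B hB m X Y hX hY hXY
  rw [sqrt_pow_eq _ (Nat.cast_nonneg _)] at h1
  set ρ : ℝ := (B.rank : ℝ) ^ ((s : ℝ) / 2) with hρ
  have hρ0 : 0 ≤ ρ := by positivity
  set n : ℝ := ((Fintype.card V : ℕ) : ℝ) with hn
  have hn0 : 0 ≤ n := Nat.cast_nonneg _
  have hs0 : (s : ℝ) ≠ 0 := by
    have : s ≠ 0 := by omega
    exact_mod_cast this
  obtain ⟨Z, hZ, hZc⟩ : ∃ Z : Finset V, (∀ x y, G.Adj x y → x ∈ Z ∨ y ∈ Z) ∧
      (Z.card : ℝ) ≤ 2 * C0 * ρ := by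
    refine ⟨univ.image X ∪ univ.image Y, fun x y hxy => ?_, ?_⟩
    · rcases hmax x y hxy with ⟨i, rfl⟩ | ⟨i, rfl⟩
      · exact Or.inl (Finset.mem_union_left _ (Finset.mem_image_of_mem _ (Finset.mem_univ _)))
      · exact Or.inr (Finset.mem_union_right _ (Finset.mem_image_of_mem _ (Finset.mem_univ _)))
    · have h2 : (univ.image X).card ≤ m := Finset.card_image_le.trans (by simp)
      have h3 : (univ.image Y).card ≤ m := Finset.card_image_le.trans (by simp)
      have h4 := Finset.card_union_le (univ.image X) (univ.image Y)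
      have h5 : ((univ.image X ∪ univ.image Y).card : ℝ) ≤ 2 * m := by
        exact_mod_cast (by omega : (univ.image X ∪ univ.image Y).card ≤ 2 * m)
      linarith
  refine ⟨⟨Z, hZ, hZc.trans ?_⟩, fun Z' hZ' => rank_le_cover G B (fun x y h => ?_) Z' hZ', ?_⟩
  · refine mul_le_mul_of_nonneg_right ?_ hρ0
    have : (0 : ℝ) ≤ 2 * C0 * (t + 1) := by positivity
    have hs' : (0 : ℝ) ≤ s := Nat.cast_nonneg s
    linarith
  · by_contra h'
    exact h ((hB x y).1 h')
  · have h2 := edges_le_deg G Z hZ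
    have h3 := kst (by omega : 1 ≤ s) hG Z
    obtain ⟨E, hE⟩ : ∃ E : ℕ, E = ∑ v, ((Z.filter (fun z => G.Adj v z)).card + 1 - s) := ⟨_, rfl⟩
    rw [← hE] at h3
    have h4 : ∑ v, (Z.filter (fun z => G.Adj v z)).card ≤ E + s * Fintype.card V := by
      rw [hE]
      calc ∑ v, (Z.filter (fun z => G.Adj v z)).card ≤
          ∑ v, (((Z.filter (fun z => G.Adj v z)).card + 1 - s) + s) :=
            Finset.sum_le_sum fun v _ => by omega
        _ = _ := by
            rw [Finset.sum_add_distrib, Finset.sum_const, smul_eq_mul, Finset.card_univ, mul_comm s]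
    have h5 : (G.edgeSet.ncard : ℝ) ≤ E + s * n := by
      rw [hn]
      exact_mod_cast h2.trans h4
    have h6 : (E : ℝ) ≤ n ^ (1 - 1 / (s : ℝ)) * ((t + 1) * Z.card) := by
      refine le_of_pow_le_pow_left₀ (by omega : s ≠ 0) (by positivity) ?_
      refine h3.trans ?_
      rw [mul_pow, ← Real.rpow_natCast (n ^ (1 - 1 / (s : ℝ))) s, ← Real.rpow_mul hn0]
      have e1 : (1 - 1 / (s : ℝ)) * s = ((s - 1 : ℕ) : ℝ) := by
        rw [Nat.cast_sub (by omega : 1 ≤ s)]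
        field_simp
        simp
      rw [e1, Real.rpow_natCast, mul_pow]
      refine mul_le_mul_of_nonneg_left ?_ (by positivity)
      refine mul_le_mul_of_nonneg_right ?_ (by positivity)
      have h7 : (1 : ℝ) ≤ t + 1 := by
        have : (0 : ℝ) ≤ t := Nat.cast_nonneg t
        linarith
      calc (t : ℝ) ≤ t + 1 := by linarith
        _ = (t + 1) ^ 1 := (pow_one _).symm
        _ ≤ (t + 1) ^ s := pow_le_pow_right₀ h7 (by omega)
    have h7 : (0 : ℝ) ≤ n ^ (1 - 1 / (s : ℝ)) := by positivity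
    have h8 : (E : ℝ) ≤ 2 * C0 * (t + 1) * (n ^ (1 - 1 / (s : ℝ)) * ρ) := by
      refine h6.trans ?_
      have h9 : ((t : ℝ) + 1) * Z.card ≤ (t + 1) * (2 * C0 * ρ) :=
        mul_le_mul_of_nonneg_left hZc (by positivity)
      calc _ ≤ n ^ (1 - 1 / (s : ℝ)) * ((t + 1) * (2 * C0 * ρ)) :=
            mul_le_mul_of_nonneg_left h9 h7
        _ = _ := by ring
    have h9 : 0 ≤ n ^ (1 - 1 / (s : ℝ)) * ρ := mul_nonneg h7 hρ0
    have h10 : (0 : ℝ) ≤ 2 * C0 * (t + 1) + 2 * C0 := by positivity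
    have h11 : (0 : ℝ) ≤ (2 * C0 * (t + 1) + 2 * C0) * n := mul_nonneg h10 hn0
    have h12 : (0 : ℝ) ≤ (2 * C0 + s) * (n ^ (1 - 1 / (s : ℝ)) * ρ) :=
      mul_nonneg (by positivity) h9
    nlinarith

/-- the graphs of the order of size of the question -/
theorem kst_dense (s t : ℕ) (hs : 2 ≤ s) (ε : ℝ) (hε : 0 < ε) : ∃ c : ℝ, 0 < c ∧
    ∀ (V : Type) [Fintype V] (G : SimpleGraph V),
    (completeBipartiteGraph (Fin s) (Fin t)).Free G →
    ε * (Fintype.card V : ℝ) ^ (2 - 1 / (s : ℝ)) ≤ G.edgeSet.ncard →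
    ∀ (F : Type u) [Field F] [CharZero F] (B : Matrix V V F), (∀ x y, B x y ≠ 0 ↔ G.Adj x y) →
    c * (Fintype.card V : ℝ) ^ (2 / (s : ℝ)) ≤ B.rank := by
  obtain ⟨C, hC, h⟩ := kst_rank.{u} s t hs
  set δ : ℝ := ε / (2 * C) with hδ
  have hδ0 : 0 < δ := by positivity
  have hsR : (2 : ℝ) ≤ s := by exact_mod_cast hs
  have hs1 : (0 : ℝ) < s - 1 := by linarith
  refine ⟨min (δ ^ (2 / (s : ℝ))) (δ ^ (2 / ((s : ℝ) - 1))), lt_min (by positivity) (by positivity), ?_⟩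
  intro V _ G hG he F _ _ B hB
  obtain ⟨⟨Z, hZ, hZc⟩, _, h3⟩ := h V G hG F B hB
  set n : ℝ := ((Fintype.card V : ℕ) : ℝ) with hn
  have hn0 : 0 ≤ n := Nat.cast_nonneg _
  rcases eq_or_lt_of_le hn0 with h0 | hnpos
  · rw [← h0, Real.zero_rpow (by positivity), mul_zero]
    exact Nat.cast_nonneg _
  have hepos : 0 < (G.edgeSet.ncard : ℝ) := lt_of_lt_of_le (by positivity) he
  have hr1 : (1 : ℝ) ≤ B.rank := by
    have h1 : B.rank ≠ 0 := by
      intro hr
      rw [hr, Nat.cast_zero, Real.zero_rpow (by positivity), mul_zero] at hZc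
      have h2 : Z.card = 0 := by
        have : (Z.card : ℝ) ≤ 0 := hZc
        exact_mod_cast le_antisymm this (Nat.cast_nonneg _)
      rw [Finset.card_eq_zero] at h2
      have h4 : G.edgeSet.ncard ≠ 0 := by
        intro h5
        rw [h5] at hepos
        simp at hepos
      obtain ⟨e, he'⟩ := Set.nonempty_of_ncard_ne_zero h4
      induction e using Sym2.ind with
      | _ x y =>
        rcases hZ x y he' with h6 | h6 <;> simp [h2] at h6
    exact_mod_cast Nat.one_le_iff_ne_zero.2 h1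
  set ρ : ℝ := (B.rank : ℝ) ^ ((s : ℝ) / 2) with hρ
  set q : ℝ := n ^ (1 - 1 / (s : ℝ)) with hq
  have hq0 : 0 < q := by positivity
  have e1 : n ^ (2 - 1 / (s : ℝ)) = n * q := by
    rw [hq, ← Real.rpow_one_add' hn0 (by
      have : 1 / (s : ℝ) ≤ 1 / 2 := one_div_le_one_div_of_le (by norm_num) hsR
      linarith)]
    congr 1
    ring
  rw [e1] at he
  by_cases hcase : q * δ ≤ 1
  · -- few vertices
    have h5 : δ ^ (2 / ((s : ℝ) - 1)) * n ^ (2 / (s : ℝ)) ≤ 1 := by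
      have e2 : n ^ (2 / (s : ℝ)) = q ^ (2 / ((s : ℝ) - 1)) := by
        rw [hq, ← Real.rpow_mul hn0]
        congr 1
        field_simp
      rw [e2, ← Real.mul_rpow hδ0.le hq0.le]
      refine Real.rpow_le_one (by positivity) ?_ (by positivity)
      linarith
    have h6 : min (δ ^ (2 / (s : ℝ))) (δ ^ (2 / ((s : ℝ) - 1))) * n ^ (2 / (s : ℝ)) ≤
        δ ^ (2 / ((s : ℝ) - 1)) * n ^ (2 / (s : ℝ)) :=
      mul_le_mul_of_nonneg_right (min_le_right _ _) (by positivity)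
    linarith
  · push Not at hcase
    have h5 : C * n ≤ ε * (n * q) / 2 := by
      have h6 : δ * (2 * C) = ε := by
        rw [hδ]
        field_simp
      rw [← h6]
      have h7 : C * n * 1 ≤ C * n * (q * δ) := mul_le_mul_of_nonneg_left hcase.le (by positivity)
      calc C * n = C * n * 1 := (mul_one _).symm
        _ ≤ C * n * (q * δ) := h7
        _ = _ := by ring
    have h6 : n * δ ≤ ρ := by
      have h7 : ε * (n * q) ≤ 2 * (C * (q * ρ)) := by
        have h8 : ε * (n * q) ≤ C * (n + q * ρ) := he.trans h3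
        nlinarith
      have h8 : δ * (2 * C) = ε := by
        rw [hδ]
        field_simp
      rw [← h8] at h7
      have h9 : (2 * C * q) * (n * δ) ≤ (2 * C * q) * ρ := by nlinarith
      exact le_of_mul_le_mul_left h9 (by positivity)
    have h7 : (n * δ) ^ (2 / (s : ℝ)) ≤ ρ ^ (2 / (s : ℝ)) :=
      Real.rpow_le_rpow (by positivity) h6 (by positivity)
    have h8 : ρ ^ (2 / (s : ℝ)) = B.rank := by
      rw [hρ, ← Real.rpow_mul (Nat.cast_nonneg _)]
      have : (s : ℝ) / 2 * (2 / s) = 1 := by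
        field_simp
      rw [this, Real.rpow_one]
    rw [h8, Real.mul_rpow hnpos.le hδ0.le] at h7
    have h9 : min (δ ^ (2 / (s : ℝ))) (δ ^ (2 / ((s : ℝ) - 1))) * n ^ (2 / (s : ℝ)) ≤
        δ ^ (2 / (s : ℝ)) * n ^ (2 / (s : ℝ)) :=
      mul_le_mul_of_nonneg_right (min_le_left _ _) (by positivity)
    linarith

end Pool.Agent.W5h94.TR
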